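import Pool.Agent.L0h50.UT.StmT

/-!
# Project UT: splitting and ramification in Galois extensions, base lemmas (for M9)
-/

set_option autoImplicit false
set_option linter.all false

open Polynomial IsDedekindDomain NumberField
open scoped Classical IntermediateField Pointwise

namespace Pool.Agent.L0h89.UT

open Pool.Agent.L0h50.UT
open Pool.Agent.N783.PF (Ov)

section gal

variable {K M : Type} [Field K] [NumberField K] [Field M] [NumberField M] [Algebra K M]

theorem lo (v : HeightOneSpectrum (𝓞 K)) (w : HeightOneSpectrum (𝓞 M)) (h : Ov v.asIdeal w) :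
    w.asIdeal.LiesOver v.asIdeal := by
  refine ⟨?_⟩
  refine v.isMaximal.eq_of_le ?_ h
  exact Ideal.comap_ne_top _ w.isPrime.ne_top

theorem exists_under (K : Type) [Field K] [NumberField K] [Algebra K M]
    (w : HeightOneSpectrum (𝓞 M)) : ∃ v : HeightOneSpectrum (𝓞 K),
      Ov v.asIdeal w ∧ v.asIdeal = w.asIdeal.comap (algebraMap (𝓞 K) (𝓞 M)) := by
  have hp := w.isPrime
  refine ⟨⟨w.asIdeal.comap (algebraMap (𝓞 K) (𝓞 M)), Ideal.comap_isPrime _ _, ?_⟩, ?_, rfl⟩
  · exact Ideal.comap_ne_bot_of_integral_mem (x := ((Ideal.absNorm w.asIdeal : ℕ) : 𝓞 M))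
      (by
        have h := w.ne_bot
        rw [Ne, ← Ideal.absNorm_eq_zero_iff] at h
        exact_mod_cast h)
      (Ideal.absNorm_mem _)
      (Algebra.IsIntegral.isIntegral _)
  · exact fun a ha => ha

variable [IsGalois K M]

theorem val_pow (v : HeightOneSpectrum (𝓞 K)) (w : HeightOneSpectrum (𝓞 M)) (h : Ov v.asIdeal w)
    (x : K) : w.valuation M (algebraMap K M x) =
      v.valuation K x ^ Nat.card (Ideal.inertia (M ≃ₐ[K] M) w.asIdeal) := by
  have := lo v w h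
  have hp := w.isPrime
  have hp' := v.isPrime
  rw [Ideal.card_inertia_eq_ramificationIdxIn v.asIdeal w.asIdeal,
    Ideal.ramificationIdxIn_eq_ramificationIdx v.asIdeal w.asIdeal (M ≃ₐ[K] M),
    ← Ideal.ramificationIdx'_eq_ramificationIdx v.asIdeal w.asIdeal v.ne_bot,
    HeightOneSpectrum.valuation_liesOver M v w x]

/-- Trivial inertia group: unramified. -/
theorem unr_of_bot (v : HeightOneSpectrum (𝓞 K)) (w : HeightOneSpectrum (𝓞 M))
    (h : Ov v.asIdeal w) (hi : Ideal.inertia (M ≃ₐ[K] M) w.asIdeal = ⊥) : Unr v w := by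
  intro x
  rw [val_pow v w h x, hi]
  simp

theorem bot_of_val (v : HeightOneSpectrum (𝓞 K)) (w : HeightOneSpectrum (𝓞 M))
    (h : Ov v.asIdeal w) (x : K) (hx : w.valuation M (algebraMap K M x) = WithZero.exp (-1 : ℤ)) :
    Ideal.inertia (M ≃ₐ[K] M) w.asIdeal = ⊥ ∧ v.valuation K x = WithZero.exp (-1 : ℤ) := by
  rw [val_pow v w h x] at hx
  have h0 : v.valuation K x ≠ 0 := by
    intro h0
    have hc : Nat.card (Ideal.inertia (M ≃ₐ[K] M) w.asIdeal) ≠ 0 := Nat.card_pos.ne'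
    rw [h0, zero_pow hc] at hx
    exact WithZero.exp_ne_zero hx.symm
  obtain ⟨z, hz⟩ : ∃ z : ℤ, v.valuation K x = WithZero.exp z :=
    ⟨WithZero.log (v.valuation K x), (WithZero.exp_log h0).symm⟩
  rw [hz, ← WithZero.exp_nsmul, WithZero.exp_inj, nsmul_eq_mul] at hx
  have h1 : (Nat.card (Ideal.inertia (M ≃ₐ[K] M) w.asIdeal) : ℤ) = 1 := by
    have : (Nat.card (Ideal.inertia (M ≃ₐ[K] M) w.asIdeal) : ℤ) ∣ 1 := ⟨-z, by linarith⟩
    exact Int.eq_one_of_dvd_one (by positivity) this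
  have h2 : z = -1 := by
    rw [h1] at hx
    linarith
  refine ⟨?_, by rw [hz, h2]⟩
  rw [← Subgroup.card_eq_one]
  exact_mod_cast h1

/-- Trivial decomposition group: elements of `𝓞 M` are congruent to elements of `𝓞 K`. -/
theorem dense (w : HeightOneSpectrum (𝓞 M))
    (hst : MulAction.stabilizer (M ≃ₐ[K] M) w.asIdeal = ⊥) (s : 𝓞 M) (m : ℕ) :
    ∃ y : 𝓞 K, s - algebraMap (𝓞 K) (𝓞 M) y ∈ w.asIdeal ^ m := by
  have hG : IsGaloisGroup (M ≃ₐ[K] M) (𝓞 K) (𝓞 M) := inferInstance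
  have hp := w.isPrime
  obtain ⟨y₀, hy₀⟩ := IsDedekindDomain.exists_forall_sub_mem_ideal
    (s := (Finset.univ : Finset (M ≃ₐ[K] M)))
    (fun σ : M ≃ₐ[K] M => σ • w.asIdeal) (fun _ => m)
    (fun σ _ => by
      refine Ideal.prime_of_isPrime ?_ ?_
      · intro h
        have : σ⁻¹ • (σ • w.asIdeal) = σ⁻¹ • (⊥ : Ideal (𝓞 M)) := by rw [h]
        rw [inv_smul_smul, Ideal.smul_bot] at this
        exact w.ne_bot this
      · infer_instance)
    (fun σ _ τ _ hne h => by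
      apply hne
      have h1 : τ⁻¹ * σ ∈ MulAction.stabilizer (M ≃ₐ[K] M) w.asIdeal := by
        rw [MulAction.mem_stabilizer_iff, mul_smul, h, inv_smul_smul]
      rw [hst, Subgroup.mem_bot] at h1
      exact (inv_mul_eq_one.mp h1).symm)
    (fun σ => if (σ : M ≃ₐ[K] M) = 1 then s else 0)
  obtain ⟨y, hy⟩ : ∃ y : 𝓞 K, algebraMap (𝓞 K) (𝓞 M) y = ∑ σ : M ≃ₐ[K] M, σ • y₀ := by
    refine hG.isInvariant.isInvariant _ (fun g => ?_)
    rw [Finset.smul_sum]
    exact Fintype.sum_bijective (fun σ => g * σ) (Group.mulLeft_bijective g) _ _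
      (fun σ => by rw [mul_smul])
  refine ⟨y, ?_⟩
  rw [hy, ← Finset.add_sum_erase _ _ (Finset.mem_univ (1 : M ≃ₐ[K] M)), one_smul]
  have h1 : y₀ - s ∈ w.asIdeal ^ m := by
    have := hy₀ 1 (Finset.mem_univ _)
    simpa using this
  have h2 : ∑ σ ∈ Finset.univ.erase (1 : M ≃ₐ[K] M), σ • y₀ ∈ w.asIdeal ^ m := by
    refine Ideal.sum_mem _ (fun σ hσ => ?_)
    have h3 := hy₀ σ⁻¹ (Finset.mem_univ _)
    have h4 : σ⁻¹ ≠ 1 := by
      simpa using hσ
    simp only [h4, if_false, sub_zero] at h3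
    have h5 := Ideal.smul_mem_pointwise_smul σ _ _ h3
    rwa [smul_pow', smul_inv_smul] at h5
  have h6 : s - (y₀ + ∑ σ ∈ Finset.univ.erase (1 : M ≃ₐ[K] M), σ • y₀) =
      -(y₀ - s) - ∑ σ ∈ Finset.univ.erase (1 : M ≃ₐ[K] M), σ • y₀ := by ring
  rw [h6]
  exact Ideal.sub_mem _ (Ideal.neg_mem_iff _ |>.mpr h1) h2

theorem dns (w : HeightOneSpectrum (𝓞 M))
    (hst : MulAction.stabilizer (M ≃ₐ[K] M) w.asIdeal = ⊥) : Dns K w := by
  intro s hs
  have halg : IsAlgebraic ℤ s := by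
    rw [IsFractionRing.isAlgebraic_iff ℤ ℚ M]
    exact Algebra.IsAlgebraic.isAlgebraic s
  obtain ⟨n, hn, hi⟩ := IsAlgebraic.exists_integral_multiple halg
  set a : 𝓞 M := ⟨n • s, hi⟩ with ha
  have hn0 : (n : M) ≠ 0 := by exact_mod_cast hn
  have ha0 : a ≠ 0 := by
    intro h
    have : (a : M) = 0 := by rw [h]; rfl
    rw [ha] at this
    have h2 : (n : M) * s = 0 := by
      simpa [zsmul_eq_mul] using this
    rcases mul_eq_zero.mp h2 with h | h
    · exact hn0 h
    · exact hs h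
  have hva : w.intValuation a ≠ 0 := w.intValuation_ne_zero a ha0
  obtain ⟨z, hz⟩ : ∃ z : ℤ, w.intValuation a = WithZero.exp z :=
    ⟨WithZero.log (w.intValuation a), (WithZero.exp_log hva).symm⟩
  obtain ⟨m, hm⟩ : ∃ m : ℕ, -(m : ℤ) < z := ⟨(-z).toNat + 1, by
    have := Int.self_le_toNat (-z)
    push_cast
    linarith⟩
  obtain ⟨y, hy⟩ := dense w hst a m
  refine ⟨(y : K) / n, ?_⟩
  have h1 : w.valuation M ((a : M) - algebraMap K M (y : K)) < w.valuation M (a : M) := by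
    have e1 : (a : M) - algebraMap K M (y : K) =
        algebraMap (𝓞 M) M (a - algebraMap (𝓞 K) (𝓞 M) y) := by
      rw [map_sub]
      rfl
    have e2 : (a : M) = algebraMap (𝓞 M) M a := rfl
    rw [e1, e2, HeightOneSpectrum.valuation_of_algebraMap, HeightOneSpectrum.valuation_of_algebraMap,
      hz]
    refine lt_of_le_of_lt ((w.intValuation_le_pow_iff_mem _ m).mpr hy) ?_
    exact WithZero.exp_lt_exp.mpr hm
  have e3 : (a : M) = (n : M) * s := by
    rw [ha]
    simp [zsmul_eq_mul]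
  have e4 : (a : M) - algebraMap K M (y : K) = (n : M) * (s - algebraMap K M ((y : K) / n)) := by
    rw [e3, map_div₀, map_intCast]
    field_simp
  rw [e4, e3, map_mul, map_mul] at h1
  have hn1 : 0 < w.valuation M (n : M) := zero_lt_iff.mpr (by
    rw [Ne, Valuation.zero_iff]
    exact hn0)
  exact lt_of_mul_lt_mul_left h1 hn1.le

end gal

end Pool.Agent.L0h89.UT
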