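import Pool.Agent.L0h89.UT.Base

/-!
# Project UT, part M9: S_SPC and S_CMP
-/

set_option autoImplicit false
set_option linter.all false

open Polynomial IsDedekindDomain NumberField
open scoped Classical IntermediateField Pointwise

namespace Pool.Agent.L0h89.UT

open Pool.Agent.L0h50.UT
open Pool.Agent.N783.PF (Ov)

section one

variable {N : Type} [Field N] [NumberField N]

theorem val_q (q : ℕ) (hU : UnrQ N q) (P : HeightOneSpectrum (𝓞 N)) (hq : (q : 𝓞 N) ∈ P.asIdeal) :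
    P.valuation N (q : N) = WithZero.exp (-1 : ℤ) := by
  have h2 := hU P.asIdeal P.isPrime hq
  have h1 : (q : 𝓞 N) ∈ P.asIdeal ^ 1 := by rwa [pow_one]
  have h0 : (q : 𝓞 N) ≠ 0 := by
    intro h
    rw [h] at h2
    exact h2 (Ideal.zero_mem _)
  have e : (q : N) = algebraMap (𝓞 N) N (q : 𝓞 N) := by simp
  rw [e, HeightOneSpectrum.valuation_of_algebraMap]
  obtain ⟨z, hz⟩ : ∃ z : ℤ, P.intValuation (q : 𝓞 N) = WithZero.exp z :=
    ⟨WithZero.log (P.intValuation (q : 𝓞 N)), (WithZero.exp_log (P.intValuation_ne_zero _ h0)).symm⟩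
  rw [← P.intValuation_le_pow_iff_mem, hz, WithZero.exp_le_exp] at h1 h2
  rw [hz]
  congr 1
  push_cast at h1 h2
  omega

theorem unrQ_of_val (q : ℕ) (hq : q.Prime) (h : ∀ P : HeightOneSpectrum (𝓞 N),
    (q : 𝓞 N) ∈ P.asIdeal → P.valuation N (q : N) = WithZero.exp (-1 : ℤ)) : UnrQ N q := by
  intro P hP hqP h2
  have hb : P ≠ ⊥ := by
    intro hb
    rw [hb, Ideal.mem_bot] at hqP
    exact hq.ne_zero (by exact_mod_cast hqP)
  have h3 := h ⟨P, hP, hb⟩ hqP
  have e : (q : N) = algebraMap (𝓞 N) N (q : 𝓞 N) := by simp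
  rw [e, HeightOneSpectrum.valuation_of_algebraMap] at h3
  have h4 := ((⟨P, hP, hb⟩ : HeightOneSpectrum (𝓞 N)).intValuation_le_pow_iff_mem (q : 𝓞 N) 2).mpr h2
  rw [h3, WithZero.exp_le_exp] at h4
  norm_num at h4

theorem card_iff (q : ℕ) (hq : q.Prime) (P : Ideal (𝓞 N)) (hP : P.IsPrime)
    (hqP : (q : 𝓞 N) ∈ P) : Nat.card (𝓞 N ⧸ P) = q ↔ ∀ x : 𝓞 N, ∃ n : ℤ, x - n ∈ P := by
  haveI : Fact q.Prime := ⟨hq⟩
  have hz : ((q : ℕ) : 𝓞 N ⧸ P) = 0 := by
    have := Ideal.Quotient.eq_zero_iff_mem.mpr hqP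
    rwa [map_natCast] at this
  haveI : CharP (𝓞 N ⧸ P) q := by
    obtain ⟨p, hp⟩ := CharP.exists (𝓞 N ⧸ P)
    have h1 : p ∣ q := (CharP.cast_eq_zero_iff _ p q).mp hz
    rcases (Nat.dvd_prime hq).mp h1 with h2 | h2
    · exact absurd h2 (CharP.char_ne_one (𝓞 N ⧸ P) p)
    · exact h2 ▸ hp
  have hinj : Function.Injective (ZMod.castHom (dvd_refl q) (𝓞 N ⧸ P)) := RingHom.injective _
  constructor
  · intro hc x
    haveI : Finite (𝓞 N ⧸ P) := Nat.finite_of_card_ne_zero (by rw [hc]; exact hq.ne_zero)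
    have hb := hinj.bijective_of_nat_card_le (by rw [hc, Nat.card_zmod])
    obtain ⟨z, hz'⟩ := hb.2 (Ideal.Quotient.mk P x)
    refine ⟨(z.val : ℤ), ?_⟩
    have h5 : ZMod.castHom (dvd_refl q) (𝓞 N ⧸ P) z = ((z.val : ℕ) : 𝓞 N ⧸ P) := by
      conv_lhs => rw [← ZMod.natCast_zmod_val z]
      rw [map_natCast]
    rw [← Ideal.Quotient.eq_zero_iff_mem, map_sub, ← hz', h5, map_intCast, Int.cast_natCast,
      sub_self]
  · intro h
    have hs : Function.Surjective (ZMod.castHom (dvd_refl q) (𝓞 N ⧸ P)) := by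
      intro r
      obtain ⟨x, rfl⟩ := Ideal.Quotient.mk_surjective r
      obtain ⟨n, hn⟩ := h x
      refine ⟨(n : ZMod q), ?_⟩
      rw [map_intCast]
      have := Ideal.Quotient.eq_zero_iff_mem.mpr hn
      rw [map_sub, sub_eq_zero, map_intCast] at this
      exact this.symm
    rw [← Nat.card_eq_of_bijective _ ⟨hinj, hs⟩, Nat.card_zmod]

end one

theorem stab_bot {K M : Type} [Field K] [Field M] [NumberField M] [Algebra K M]
    (P : Ideal (𝓞 M)) (hi : Ideal.inertia (M ≃ₐ[K] M) P = ⊥)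
    (h : ∀ x : 𝓞 M, ∃ n : ℤ, x - n ∈ P) : MulAction.stabilizer (M ≃ₐ[K] M) P = ⊥ := by
  rw [Subgroup.eq_bot_iff_forall]
  intro σ hσ
  have : σ ∈ Ideal.inertia (M ≃ₐ[K] M) P := by
    intro x
    obtain ⟨n, hn⟩ := h x
    have h1 := Ideal.smul_mem_pointwise_smul σ _ _ hn
    rw [MulAction.mem_stabilizer_iff.mp hσ, smul_sub] at h1
    have h2 : σ • ((n : ℤ) : 𝓞 M) = (n : 𝓞 M) := by
      have := map_intCast (MulSemiringAction.toRingHom (M ≃ₐ[K] M) (𝓞 M) σ) n
      exact this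
    rw [h2] at h1
    have h3 : σ • x - x = (σ • x - (n : 𝓞 M)) - (x - n) := by ring
    change σ • x - x ∈ P
    rw [h3]
    exact Ideal.sub_mem _ h1 hn
  rw [hi] at this
  exact this

section res

variable {k E F M : Type} [Field k] [Field E] [Field F] [Field M]
  [Algebra k E] [Algebra k F] [Algebra k M] [Algebra F M] [Algebra E M]
  [IsScalarTower k E M] [IsScalarTower k F M] [Normal k E]

theorem res (w : Ideal (𝓞 M)) (σ : M ≃ₐ[F] M) :
    ∃ ρ : E ≃ₐ[k] E, (∀ x : E, algebraMap E M (ρ x) = σ (algebraMap E M x)) ∧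
      (σ ∈ Ideal.inertia (M ≃ₐ[F] M) w →
        ρ ∈ Ideal.inertia (E ≃ₐ[k] E) (w.comap (algebraMap (𝓞 E) (𝓞 M)))) ∧
      (σ ∈ MulAction.stabilizer (M ≃ₐ[F] M) w →
        ρ ∈ MulAction.stabilizer (E ≃ₐ[k] E) (w.comap (algebraMap (𝓞 E) (𝓞 M)))) := by
  set ρ : E ≃ₐ[k] E := (σ.restrictScalars k).restrictNormal E with hρ
  have h1 : ∀ x : E, algebraMap E M (ρ x) = σ (algebraMap E M x) := by
    intro x
    rw [hρ, AlgEquiv.restrictNormal_commutes]
    rfl
  have h2 : ∀ x : 𝓞 E, algebraMap (𝓞 E) (𝓞 M) (ρ • x) = σ • (algebraMap (𝓞 E) (𝓞 M) x) := by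
    intro x
    apply RingOfIntegers.ext
    exact h1 x
  refine ⟨ρ, h1, ?_, ?_⟩
  · intro hσ x
    change algebraMap (𝓞 E) (𝓞 M) (ρ • x - x) ∈ w
    rw [map_sub, h2]
    exact hσ _
  · intro hσ
    rw [MulAction.mem_stabilizer_iff] at hσ ⊢
    have h3 : ∀ x : 𝓞 M, σ • x ∈ w ↔ x ∈ w := by
      intro x
      conv_lhs => rw [← hσ]
      exact Ideal.smul_mem_pointwise_smul_iff
    have h4 : ∀ x : 𝓞 E, ρ • x ∈ w.comap (algebraMap (𝓞 E) (𝓞 M)) ↔
        x ∈ w.comap (algebraMap (𝓞 E) (𝓞 M)) := by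
      intro x
      rw [Ideal.mem_comap, Ideal.mem_comap, h2, h3]
    ext x
    rw [← smul_inv_smul ρ x, Ideal.smul_mem_pointwise_smul_iff, h4]

end res

/-- The Galois group of a compositum. -/
theorem isGalois_comp {N F M : Type} [Field N] [NumberField N] [Field F] [NumberField F] [Field M]
    [NumberField M] [Algebra F M] [IsGalois ℚ N] (ι : N →+* M)
    (h : Algebra.adjoin F (Set.range ι) = ⊤) : IsGalois F M := by
  obtain ⟨p, hp, hs⟩ := IsGalois.is_separable_splitting_field ℚ N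
  have hι : ι.comp (algebraMap ℚ N) = algebraMap ℚ M := RingHom.ext_rat _ _
  have hF : (algebraMap F M).comp (algebraMap ℚ F) = algebraMap ℚ M := RingHom.ext_rat _ _
  have h1 : (p.map (algebraMap ℚ F)).IsSplittingField F M := by
    refine ⟨?_, ?_⟩
    · rw [Polynomial.map_map, hF, ← hι, ← Polynomial.map_map]
      exact hs.splits'.map ι
    · rw [← top_le_iff, ← h]
      refine Algebra.adjoin_le ?_
      rintro _ ⟨x, rfl⟩
      have hx : x ∈ Algebra.adjoin ℚ (p.rootSet N : Set N) := by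
        rw [hs.adjoin_rootSet']
        exact Algebra.mem_top
      induction hx using Algebra.adjoin_induction with
      | mem x hx =>
        apply Algebra.subset_adjoin
        rw [Polynomial.mem_rootSet'] at hx ⊢
        have h2 : aeval (ι x) (p.map (algebraMap ℚ F)) = ι (aeval x p) := by
          rw [aeval_map_algebraMap, aeval_def, aeval_def, ← hι, hom_eval₂]
        refine ⟨?_, by rw [h2, hx.2, map_zero]⟩
        rw [Polynomial.map_map, hF, ← hι, ← Polynomial.map_map]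
        exact (Polynomial.map_ne_zero_iff ι.injective).mpr hx.1
      | algebraMap r =>
        have : ι (algebraMap ℚ N r) = algebraMap F M (algebraMap ℚ F r) := by
          have e1 := RingHom.congr_fun hι r
          have e2 := RingHom.congr_fun hF r
          simp only [RingHom.comp_apply] at e1 e2
          rw [e1, e2]
        rw [this]
        exact Subalgebra.algebraMap_mem _ _
      | add x y _ _ hx hy =>
        rw [map_add]
        exact add_mem hx hy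
      | mul x y _ _ hx hy =>
        rw [map_mul]
        exact mul_mem hx hy
  have : Normal F M := Normal.of_isSplittingField (p.map (algebraMap ℚ F))
  exact ⟨⟩

theorem fix_of_gen {N F M : Type} [Field N] [Field F] [Field M] [Algebra F M]
    (S : Set M) (h : Algebra.adjoin F S = ⊤) (σ : M ≃ₐ[F] M)
    (hσ : ∀ x ∈ S, σ x = x) : σ = 1 := by
  apply AlgEquiv.ext
  intro x
  have hx : x ∈ Algebra.adjoin F S := by
    rw [h]
    exact Algebra.mem_top
  induction hx using Algebra.adjoin_induction with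
  | mem x hx => exact hσ x hx
  | algebraMap r => exact σ.commutes r
  | add x y _ _ hx hy => rw [map_add, hx, hy]; rfl
  | mul x y _ _ hx hy => rw [map_mul, hx, hy]; rfl

theorem spc : S_SPC := by
  intro N F M _ _ _ _ _ _ _ _ ι h
  have hG : IsGalois F M := isGalois_comp ι h
  letI : Algebra N M := ι.toAlgebra
  refine ⟨hG, ?_, ?_⟩
  · intro m hm
    have hinj : Function.Injective ((AlgEquiv.restrictNormalHom N : (M ≃ₐ[ℚ] M) →* (N ≃ₐ[ℚ] N)).comp
        (AlgEquiv.restrictScalarsHom ℚ : (M ≃ₐ[F] M) →* (M ≃ₐ[ℚ] M))) := by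
      rw [injective_iff_map_eq_one]
      intro σ hσ
      refine fix_of_gen (N := N) _ h σ ?_
      rintro _ ⟨x, rfl⟩
      have h1 := AlgEquiv.restrictNormal_commutes (σ.restrictScalars ℚ) N x
      have h2 : (σ.restrictScalars ℚ).restrictNormal N = 1 := hσ
      rw [h2] at h1
      exact h1.symm
    have hd := Subgroup.card_dvd_of_injective _ hinj
    rw [IsGalois.card_aut_eq_finrank, IsGalois.card_aut_eq_finrank, hm,
      Nat.dvd_prime_pow Nat.prime_two] at hd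
    obtain ⟨n, _, hn⟩ := hd
    exact ⟨n, hn⟩
  · intro q hq v w hv hw
    obtain ⟨u, hu, hu'⟩ := exists_under N w
    obtain ⟨t, ht, ht'⟩ := exists_under ℚ u
    have hqw : (q : 𝓞 M) ∈ w.asIdeal := by
      have := hw _ hv
      rwa [map_natCast] at this
    have hqu : (q : 𝓞 N) ∈ u.asIdeal := by
      rw [hu', Ideal.mem_comap, map_natCast]
      exact hqw
    have key1 : UnrQ N q → Ideal.inertia (N ≃ₐ[ℚ] N) u.asIdeal = ⊥ := by
      intro hU
      exact (bot_of_val t u ht (q : ℚ) (by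
        rw [map_natCast]
        exact val_q q hU u hqu)).1
    have key2 : UnrQ N q → Ideal.inertia (M ≃ₐ[F] M) w.asIdeal = ⊥ := by
      intro hU
      rw [Subgroup.eq_bot_iff_forall]
      intro σ hσ
      obtain ⟨ρ, h1, h2, h3⟩ := res (k := ℚ) (E := N) w.asIdeal σ
      have h4 := h2 hσ
      rw [← hu', key1 hU, Subgroup.mem_bot] at h4
      refine fix_of_gen (N := N) _ h σ ?_
      rintro _ ⟨x, rfl⟩
      have h5 := h1 x
      rw [h4] at h5
      exact h5.symm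
    refine ⟨fun hU => unr_of_bot v w hw (key2 hU), fun hS => ⟨unr_of_bot v w hw (key2 hS.1), ?_⟩⟩
    apply dns
    have h6 := (card_iff q hq u.asIdeal u.isPrime hqu).mp (hS.2 u.asIdeal u.isPrime hqu)
    have h7 := stab_bot (K := ℚ) u.asIdeal (key1 hS.1) h6
    rw [Subgroup.eq_bot_iff_forall]
    intro σ hσ
    obtain ⟨ρ, h1, h2, h3⟩ := res (k := ℚ) (E := N) w.asIdeal σ
    have h4 := h3 hσ
    rw [← hu', h7, Subgroup.mem_bot] at h4
    refine fix_of_gen (N := N) _ h σ ?_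
    rintro _ ⟨x, rfl⟩
    have h5 := h1 x
    rw [h4] at h5
    exact h5.symm

theorem half {k E N : Type} [Field k] [NumberField k] [Field E] [NumberField E] [Field N]
    [NumberField N] [Algebra k E] [Algebra k N] (ι : E →ₐ[k] N) (hG : IsGalois k E)
    (P : HeightOneSpectrum (𝓞 N)) (v : HeightOneSpectrum (𝓞 k))
    (hv : v.asIdeal = P.asIdeal.comap (algebraMap (𝓞 k) (𝓞 N))) (q : ℕ) (hq : q.Prime)
    (hqP : (q : 𝓞 N) ∈ P.asIdeal) (hU : UnrQ E q) :
    v.valuation k (q : k) = WithZero.exp (-1 : ℤ) ∧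
    (∀ σ ∈ Ideal.inertia (N ≃ₐ[k] N) P.asIdeal, ∀ x : E, σ (ι x) = ι x) ∧
    (SplQ E q → (∀ σ ∈ MulAction.stabilizer (N ≃ₐ[k] N) P.asIdeal, ∀ x : E, σ (ι x) = ι x) ∧
      ∀ x : 𝓞 k, ∃ n : ℤ, x - n ∈ v.asIdeal) := by
  letI : Algebra E N := ι.toRingHom.toAlgebra
  haveI : IsScalarTower k E N := IsScalarTower.of_algebraMap_eq' ι.comp_algebraMap.symm
  obtain ⟨u, hu, hu'⟩ := exists_under E P
  obtain ⟨t, ht, ht'⟩ := exists_under k u
  have hvt : t = v := by
    apply HeightOneSpectrum.ext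
    rw [ht', hu', hv]
    ext x
    rw [Ideal.mem_comap, Ideal.mem_comap, Ideal.mem_comap]
    have : algebraMap (𝓞 E) (𝓞 N) (algebraMap (𝓞 k) (𝓞 E) x) = algebraMap (𝓞 k) (𝓞 N) x := by
      apply RingOfIntegers.ext
      exact (IsScalarTower.algebraMap_apply k E N (x : k)).symm
    rw [this]
  subst hvt
  have hqu : (q : 𝓞 E) ∈ u.asIdeal := by
    rw [hu', Ideal.mem_comap, map_natCast]
    exact hqP
  have hb := bot_of_val t u ht (q : k) (by
        rw [map_natCast]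
        exact val_q q hU u hqu)
  refine ⟨hb.2, ?_, ?_⟩
  · intro σ hσ x
    obtain ⟨ρ, h1, h2, h3⟩ := res (k := k) (E := E) P.asIdeal σ
    have h4 := h2 hσ
    rw [← hu', hb.1, Subgroup.mem_bot] at h4
    have h5 := h1 x
    rw [h4] at h5
    exact h5.symm
  · intro hS
    have h6 := (card_iff q hq u.asIdeal u.isPrime hqu).mp (hS.2 u.asIdeal u.isPrime hqu)
    refine ⟨?_, ?_⟩
    · intro σ hσ x
      obtain ⟨ρ, h1, h2, h3⟩ := res (k := k) (E := E) P.asIdeal σ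
      have h4 := h3 hσ
      rw [← hu', stab_bot (K := k) u.asIdeal hb.1 h6, Subgroup.mem_bot] at h4
      have h5 := h1 x
      rw [h4] at h5
      exact h5.symm
    · intro x
      obtain ⟨n, hn⟩ := h6 (algebraMap (𝓞 k) (𝓞 E) x)
      refine ⟨n, ?_⟩
      rw [ht', Ideal.mem_comap, map_sub, map_intCast]
      exact hn

theorem cmp : S_CMP := by
  intro k E₁ E₂ N _ _ _ _ _ _ _ _ _ _ _ ι₁ ι₂ hG₁ hG₂ h q hq
  have hG : IsGalois k N := by
    have n1 : Normal k ι₁.fieldRange := Normal.of_algEquiv (AlgEquiv.ofInjectiveField ι₁)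
    have n2 : Normal k ι₂.fieldRange := Normal.of_algEquiv (AlgEquiv.ofInjectiveField ι₂)
    have h1 : ι₁.fieldRange ⊔ ι₂.fieldRange = ⊤ := by
      rw [← top_le_iff]
      intro x _
      have hx : x ∈ Algebra.adjoin k (Set.range ι₁ ∪ Set.range ι₂) := by
        rw [h]
        exact Algebra.mem_top
      have h2 : Algebra.adjoin k (Set.range ι₁ ∪ Set.range ι₂) ≤
          (ι₁.fieldRange ⊔ ι₂.fieldRange).toSubalgebra := by
        refine Algebra.adjoin_le ?_
        rintro y (⟨z, rfl⟩ | ⟨z, rfl⟩)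
        · exact (le_sup_left : ι₁.fieldRange ≤ _) ⟨z, rfl⟩
        · exact (le_sup_right : ι₂.fieldRange ≤ _) ⟨z, rfl⟩
      exact h2 hx
    have n3 : Normal k (ι₁.fieldRange ⊔ ι₂.fieldRange : IntermediateField k N) := inferInstance
    rw [h1] at n3
    have n4 : Normal k N := Normal.of_algEquiv IntermediateField.topEquiv
    exact ⟨⟩
  have key : ∀ (P : HeightOneSpectrum (𝓞 N)) (v : HeightOneSpectrum (𝓞 k)),
      v.asIdeal = P.asIdeal.comap (algebraMap (𝓞 k) (𝓞 N)) → (q : 𝓞 N) ∈ P.asIdeal →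
      UnrQ E₁ q → UnrQ E₂ q → v.valuation k (q : k) = WithZero.exp (-1 : ℤ) ∧
        Ideal.inertia (N ≃ₐ[k] N) P.asIdeal = ⊥ ∧ (SplQ E₁ q → SplQ E₂ q →
        MulAction.stabilizer (N ≃ₐ[k] N) P.asIdeal = ⊥ ∧ ∀ x : 𝓞 k, ∃ n : ℤ, x - n ∈ v.asIdeal) := by
    intro P v hv hqP hU₁ hU₂
    obtain ⟨a1, a2, a3⟩ := half ι₁ hG₁ P v hv q hq hqP hU₁
    obtain ⟨b1, b2, b3⟩ := half ι₂ hG₂ P v hv q hq hqP hU₂
    refine ⟨a1, ?_, ?_⟩
    · rw [Subgroup.eq_bot_iff_forall]
      intro σ hσ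
      refine fix_of_gen (N := N) _ h σ ?_
      rintro y (⟨z, rfl⟩ | ⟨z, rfl⟩)
      · exact a2 σ hσ z
      · exact b2 σ hσ z
    · intro hS₁ hS₂
      refine ⟨?_, (a3 hS₁).2⟩
      rw [Subgroup.eq_bot_iff_forall]
      intro σ hσ
      refine fix_of_gen (N := N) _ h σ ?_
      rintro y (⟨z, rfl⟩ | ⟨z, rfl⟩)
      · exact (a3 hS₁).1 σ hσ z
      · exact (b3 hS₂).1 σ hσ z
  have hunr : UnrQ E₁ q → UnrQ E₂ q → UnrQ N q := by
    intro hU₁ hU₂
    refine unrQ_of_val q hq (fun P hqP => ?_)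
    obtain ⟨v, hov, hv⟩ := exists_under k P
    obtain ⟨c1, c2, _⟩ := key P v hv hqP hU₁ hU₂
    have := unr_of_bot v P hov c2 (q : k)
    rw [map_natCast] at this
    rw [this, c1]
  refine ⟨hunr, fun hS₁ hS₂ => ⟨hunr hS₁.1 hS₂.1, ?_⟩⟩
  intro Q hQ hqQ
  rw [card_iff q hq Q hQ hqQ]
  have hb : Q ≠ ⊥ := by
    intro hb
    rw [hb, Ideal.mem_bot] at hqQ
    exact hq.ne_zero (by exact_mod_cast hqQ)
  obtain ⟨v, hov, hv⟩ := exists_under k ⟨Q, hQ, hb⟩
  obtain ⟨c1, c2, c3⟩ := key ⟨Q, hQ, hb⟩ v hv hqQ hS₁.1 hS₂.1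
  obtain ⟨c4, c5⟩ := c3 hS₁ hS₂
  intro x
  obtain ⟨y, hy⟩ := dense ⟨Q, hQ, hb⟩ c4 x 1
  rw [pow_one] at hy
  obtain ⟨n, hn⟩ := c5 y
  refine ⟨n, ?_⟩
  have h1 : algebraMap (𝓞 k) (𝓞 N) (y - n) ∈ Q := hov _ hn
  rw [map_sub, map_intCast] at h1
  have h2 : x - (n : 𝓞 N) = (x - algebraMap (𝓞 k) (𝓞 N) y) + (algebraMap (𝓞 k) (𝓞 N) y - n) := by
    ring
  rw [h2]
  exact Ideal.add_mem _ hy h1

end Pool.Agent.L0h89.UT
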